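import Mathlib

set_option autoImplicit false

namespace Pool.Agent.H.MP_079cdc_gt

open Set Topology Filter Metric Function

@[ext] structure T where
  r : ℝ
  S : Set ℝ
  lt : ∀ t ∈ S, t < r
  bd : BddBelow S
  rc : ∀ t, ∀ᶠ s in 𝓝[>] t, (s ∈ S ↔ t ∈ S)

def P (x y : T) : Set ℝ := {u | u ≤ x.r ∧ u ≤ y.r ∧ ∀ t < u, (t ∈ x.S ↔ t ∈ y.S)}

noncomputable def s (x y : T) : ℝ := sSup (P x y)

theorem le_s {x y : T} {u : ℝ} : u ≤ s x y ↔ u ∈ P x y := by
  have b : BddAbove (P x y) := ⟨x.r, fun _ h => h.1⟩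
  refine ⟨fun h => ?_, le_csSup b⟩
  obtain ⟨m, a⟩ := x.bd.union y.bd
  have n : (P x y).Nonempty := ⟨min m (min x.r y.r), by simp, by simp, fun t k =>
    iff_of_false (fun l => (a (.inl l)).not_gt (k.trans_le (min_le_left _ _)))
      fun l => (a (.inr l)).not_gt (k.trans_le (min_le_left _ _))⟩
  refine ⟨h.trans (csSup_le n fun _ k => k.1), h.trans (csSup_le n fun _ k => k.2.1), fun t k => ?_⟩
  obtain ⟨v, l, o⟩ := exists_lt_of_lt_csSup n (k.trans_le h)
  exact l.2.2 t o

theorem s_mem (x y : T) : s x y ∈ P x y := le_s.1 le_rfl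

theorem s_comm (x y : T) : s x y = s y x :=
  congrArg sSup (Set.ext fun _ => ⟨fun h => ⟨h.2.1, h.1, fun t k => (h.2.2 t k).symm⟩,
    fun h => ⟨h.2.1, h.1, fun t k => (h.2.2 t k).symm⟩⟩)

theorem s_min (x y z : T) : s x y ≤ s x z ∨ s y z ≤ s x z :=
  min_le_iff.1 (le_s.2 ⟨(min_le_left _ _).trans (s_mem x y).1, (min_le_right _ _).trans
    (s_mem y z).2.1, fun t k => ((s_mem x y).2.2 t (lt_min_iff.1 k).1).trans
      ((s_mem y z).2.2 t (lt_min_iff.1 k).2)⟩)

noncomputable instance : MetricSpace T where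
  dist x y := x.r + y.r - 2 * s x y
  dist_self x := by
    linarith [(s_mem x x).1, le_s.2 (⟨le_rfl, le_rfl, fun _ _ => Iff.rfl⟩ : x.r ∈ P x x)]
  dist_comm x y := by rw [s_comm, add_comm]
  dist_triangle x y z := by
    rcases s_min x y z with h | h <;> linarith [(s_mem x y).2.1, (s_mem y z).1]
  eq_of_dist_eq_zero {x y} h := by
    have a := (s_mem x y).1
    have b := (s_mem x y).2.1
    exact T.ext (by linarith) (Set.ext fun t => ⟨fun k => ((s_mem x y).2.2 t
      (by linarith [x.lt t k])).1 k, fun k => ((s_mem x y).2.2 t (by linarith [y.lt t k])).2 k⟩)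

theorem d_eq (x y : T) : dist x y = x.r + y.r - 2 * s x y := rfl

/-- keep `x` below `v`, then take the constant value `c` up to height `u` -/
def mk' (x : T) (v u : ℝ) (c : Prop) : T where
  r := u
  S := {t | t < u ∧ ((t < v ∧ t ∈ x.S) ∨ (v ≤ t ∧ c))}
  lt _ h := h.1
  bd := (x.bd.union (bddBelow_Ici (a := v))).mono fun _ h => h.2.imp And.right And.left
  rc t := by
    have : ∀ a : ℝ, ∀ᶠ s in 𝓝[>] t, (s < a ↔ t < a) := fun a => by
      rcases lt_or_ge t a with h | h
      · exact mem_nhdsWithin_of_mem_nhds (mem_of_superset (Iio_mem_nhds h) fun _ k => iff_of_true k h)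
      · exact mem_of_superset self_mem_nhdsWithin fun _ k =>
          iff_of_false (h.trans_lt k).not_gt h.not_gt
    filter_upwards [this u, this v, x.rc t] with z a b d
    simp only [mem_ofPred, a, b, d, ← not_lt]

theorem s_mk (x : T) {v u : ℝ} (c : Prop) (h : min u x.r ≤ v) : s (mk' x v u c) x = min u x.r :=
  (le_min (s_mem _ _).1 (s_mem _ _).2.1).antisymm (le_s.2 ⟨min_le_left _ _, min_le_right _ _,
    fun t (k : t < min u x.r) => by
      simp [mk', (lt_min_iff.1 k).1, k.trans_le h, (k.trans_le h).not_ge]⟩)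

theorem geo (a b : T) (t : ℝ) (h : 0 ≤ t) (k : t ≤ dist a b) :
    ∃ z, dist a z = t ∧ dist z b = dist a b - t := by
  have : ∀ a b : T, ∀ t, 0 ≤ t → t ≤ a.r - s a b →
      ∃ z, dist a z = t ∧ dist z b = dist a b - t := fun a b t h k => by
    have e := s_mk a (u := a.r - t) True le_rfl
    rw [min_eq_left (sub_le_self _ h)] at e
    refine ⟨mk' a (a.r - t) (a.r - t) True, by rw [d_eq, s_comm, e]; simp [mk']; ring, ?_⟩
    set z := mk' a (a.r - t) (a.r - t) True
    have := dist_triangle a z b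
    have f : z.r = a.r - t := rfl
    simp only [d_eq, s_comm a z] at this ⊢
    rcases s_min z a b with l | l <;> linarith [(s_mem z b).1, (s_mem a b).1]
  rcases le_total t (a.r - s a b) with l | l
  · exact this a b t h l
  obtain ⟨z, p, q⟩ := this b a (dist a b - t) (sub_nonneg.2 k) (by rw [d_eq, s_comm b]; linarith)
  exact ⟨z, by rw [dist_comm, q, dist_comm b]; ring, by rw [dist_comm, p]⟩

theorem four (a b c z : T) : dist a b + dist c z ≤ dist a c + dist b z ∨
    dist a b + dist c z ≤ dist a z + dist b c := by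
  by_contra! h
  simp only [d_eq] at h
  rcases s_min a c b with k | k <;> rcases s_min a z b with l | l <;>
    rcases s_min c a z with m | m <;> rcases s_min c b z with n | n <;>
    linarith [s_comm a c, s_comm b c, s_comm b z, h.1, h.2]

open Classical in
noncomputable def dir (p x : T) : Option Prop := if s x p = p.r then some (p.r ∈ x.S) else none

theorem dir_iff (p x y : T) (h : x ≠ p) (k : y ≠ p) :
    dir p x = dir p y ↔ dist x y < dist x p + dist p y := by
  have a := dist_pos.2 h
  have b := dist_pos.2 k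
  have c := (s_mem x p).2.1
  have d := (s_mem y p).2.1
  simp only [d_eq, s_comm p y, dir] at a b ⊢
  split_ifs with e f f
  · refine Option.some_inj.trans (propext_iff.trans ⟨fun g => ?_, fun g => (s_mem x y).2.2 _
      (by linarith)⟩)
    obtain ⟨u, l, m⟩ := (mem_nhdsGT_iff_exists_Ioo_subset).1 ((x.rc p.r).and (y.rc p.r))
    have : min u (min x.r y.r) ≤ s x y := le_s.2 ⟨by simp, by simp, fun t n => by
      rcases lt_trichotomy t p.r with o | rfl | o
      · exact ((s_mem x p).2.2 t (e ▸ o)).trans ((s_mem y p).2.2 t (f ▸ o)).symm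
      · exact g
      · have := m ⟨o, n.trans_le (min_le_left _ _)⟩
        exact this.1.trans (g.trans this.2.symm)⟩
    linarith [lt_min (mem_Ioi.1 l) (lt_min (by linarith : p.r < x.r) (by linarith : p.r < y.r))]
  · refine iff_of_false nofun (not_lt.2 ?_)
    rcases s_min y x p with g | g <;> linarith [s_comm x y, d.lt_of_ne f]
  · refine iff_of_false nofun (not_lt.2 ?_)
    rcases s_min x y p with g | g <;> linarith [c.lt_of_ne e]
  · refine iff_of_true rfl ?_
    rcases s_min x p y with g | g <;> linarith [s_comm p y, c.lt_of_ne e, d.lt_of_ne f]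

theorem dir_ex (p : T) (j : Option Prop) {r : ℝ} (h : 0 < r) : ∃ y, dir p y = j ∧ dist y p = r := by
  rcases j with _ | c
  · have e := s_mk p (u := p.r - r) True (min_le_left _ _)
    rw [min_eq_left (sub_le_self _ h.le)] at e
    exact ⟨_, if_neg (e.trans_ne (sub_lt_self _ h).ne), by rw [d_eq, e]; simp [mk']; ring⟩
  · have e := s_mk p (u := p.r + r) c (min_le_right _ _)
    rw [min_eq_right (le_add_of_nonneg_right h.le)] at e
    exact ⟨_, (if_pos e).trans (by simp [mk', h]), by rw [d_eq, e]; simp [mk']; ring⟩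

instance : CompleteSpace T := complete_of_cauchySeq_tendsto fun x h => by
  obtain ⟨r, l⟩ := cauchySeq_tendsto_of_complete ((LipschitzWith.of_dist_le_mul (K := 1)
    (f := T.r) fun x y => by
      simp only [Real.dist_eq, d_eq, abs_le]
      constructor <;> push_cast <;> linarith [(s_mem x y).1, (s_mem x y).2.1]).cauchySeq_comp h)
  have k : ∀ u < r, ∀ᶠ n in atTop, u ≤ (x n).r ∧ ∀ t < u,
      (t ∈ (x n).S ↔ t < r ∧ ∀ᶠ m in atTop, t ∈ (x m).S) := fun u a => by
    obtain ⟨N, b⟩ := Metric.cauchySeq_iff.1 h (r - u) (sub_pos.2 a)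
    have := (l.eventually_const_lt (show (u + r) / 2 < r by linarith)).and (eventually_ge_atTop N)
    filter_upwards [this] with n c
    have e : ∀ᶠ m in atTop, u ∈ P (x n) (x m) := this.mono fun m d => le_s.1 (by
      have := b n c.2 m d.2
      rw [d_eq] at this
      linarith [show _ < (x n).r from c.1, show _ < (x m).r from d.1])
    exact ⟨e.exists.choose_spec.1, fun t f => ⟨fun g => ⟨f.trans a, e.mono fun m o =>
      (o.2.2 t f).1 g⟩, fun g => by
        obtain ⟨m, o, q⟩ := (e.and g.2).exists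
        exact (o.2.2 t f).2 q⟩⟩
  refine ⟨⟨r, {t | t < r ∧ ∀ᶠ m in atTop, t ∈ (x m).S}, fun _ => And.left, ?_, fun t => ?_⟩,
    Metric.tendsto_nhds.2 fun ε e => ?_⟩
  · obtain ⟨n, a⟩ := (k _ (sub_one_lt r)).exists
    exact ((x n).bd.union (bddBelow_Ici (a := r - 1))).mono fun t b =>
      (lt_or_ge t (r - 1)).imp_left fun c => (a.2 t c).2 b
  · rcases lt_or_ge t r with a | a
    · obtain ⟨u, b, c⟩ := exists_between a
      obtain ⟨n, d⟩ := (k u c).exists
      filter_upwards [(x n).rc t, mem_nhdsWithin_of_mem_nhds (Iio_mem_nhds b)] with z f g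
      exact (d.2 z g).symm.trans (f.trans (d.2 t b))
    · exact mem_of_superset self_mem_nhdsWithin fun _ b =>
        iff_of_false (fun c => (a.trans_lt b).not_gt c.1) fun c => a.not_gt c.1
  · filter_upwards [k (r - ε / 4) (by linarith), l.eventually_lt_const
      (show r < r + ε / 4 by linarith)] with n a b
    rw [d_eq]
    refine (sub_le_sub_left (mul_le_mul_of_nonneg_left (le_s.2 (by
      exact ⟨a.1, sub_le_self r (by linarith), a.2⟩) : r - ε / 4 ≤ _) zero_le_two) _).trans_lt ?_
    linarith [show (x n).r < _ from b]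

instance : Nonempty T := ⟨⟨0, ∅, nofun, bddBelow_empty, by simp⟩⟩

end Pool.Agent.H.MP_079cdc_gt
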